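import Pool.Agent.W2helper22.CU.Stmts2

/-!
# Colourings and closure (pieces COL and CLOS of project CU)
-/

set_option autoImplicit false

namespace Pool.Agent.W2helper56.CU

open Finset Pool.Agent.W2helper22.CU

/-- the probability that a random colouring with `κ` colours is injective on `m` points -/
noncomputable def w (κ m : ℕ) : ℝ := (κ.descFactorial m : ℝ) / (κ : ℝ) ^ m

theorem w_nonneg (κ m : ℕ) : 0 ≤ w κ m := by unfold w; positivity

theorem w_succ {κ m : ℕ} (hκ : 1 ≤ κ) : w κ (m + 1) = ((κ - m : ℕ) : ℝ) / κ * w κ m := by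
  unfold w
  rw [Nat.descFactorial_succ, pow_succ]
  push_cast
  have : (κ : ℝ) ≠ 0 := by positivity
  field_simp

theorem w_succ_le {κ m : ℕ} (hκ : 1 ≤ κ) : w κ (m + 1) ≤ w κ m := by
  rw [w_succ hκ]
  have h1 : ((κ - m : ℕ) : ℝ) / κ ≤ 1 := by
    rw [div_le_one (by positivity)]
    exact_mod_cast Nat.sub_le κ m
  have := mul_le_mul_of_nonneg_right h1 (w_nonneg κ m)
  linarith

theorem w_anti {κ : ℕ} (hκ : 1 ≤ κ) {m m' : ℕ} (h : m ≤ m') : w κ m' ≤ w κ m := by
  induction h with
  | refl => exact le_rfl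
  | step _ ih => exact (w_succ_le hκ).trans ih

theorem w_le_one {κ : ℕ} (hκ : 1 ≤ κ) (m : ℕ) : w κ m ≤ 1 := by
  have := w_anti hκ (Nat.zero_le m)
  simpa [w] using this

theorem w_self (κ : ℕ) : w κ κ = qq κ := by
  unfold w qq
  rw [Nat.descFactorial_self]

theorem qq_le_w {κ m : ℕ} (hκ : 1 ≤ κ) (h : m ≤ κ) : qq κ ≤ w κ m := by
  rw [← w_self]
  exact w_anti hκ h

theorem qq_le_one {κ : ℕ} (hκ : 1 ≤ κ) : qq κ ≤ 1 := by
  rw [← w_self]
  exact w_le_one hκ κ

open Classical in
theorem step {n κ : ℕ} (Q : Finset (Fin n → Fin κ)) (U : Finset (Fin n)) (a : Fin n) (ha : a ∉ U)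
    (hQ : ∀ c ∈ Q, ∀ y, Function.update c a y ∈ Q) :
    (Q.filter (fun c => Set.InjOn c (U : Set (Fin n)))).card * (κ - U.card) ≤
      (Q.filter (fun c => Set.InjOn c ((insert a U : Finset (Fin n)) : Set (Fin n)))).card * κ := by
  have h1 : ((Q.filter (fun c => Set.InjOn c (U : Set (Fin n)))).sigma
      (fun c => univ \ U.image c)).card =
      (Q.filter (fun c => Set.InjOn c (U : Set (Fin n)))).card * (κ - U.card) := by
    rw [card_sigma, sum_const_nat]
    intro c hc
    rw [mem_filter] at hc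
    rw [card_sdiff_of_subset (subset_univ _), card_image_of_injOn hc.2, card_univ, Fintype.card_fin]
  have h2 : ((Q.filter (fun c => Set.InjOn c ((insert a U : Finset (Fin n)) : Set (Fin n)))) ×ˢ
      (univ : Finset (Fin κ))).card =
      (Q.filter (fun c => Set.InjOn c ((insert a U : Finset (Fin n)) : Set (Fin n)))).card * κ := by
    rw [card_product, card_univ, Fintype.card_fin]
  rw [← h1, ← h2]
  apply card_le_card_of_injOn (fun z => (Function.update z.1 a z.2, z.1 a))
  · intro z hz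
    rw [mem_coe, mem_sigma, mem_filter] at hz
    obtain ⟨⟨hzQ, hzU⟩, hz2⟩ := hz
    rw [mem_sdiff, mem_image] at hz2
    rw [mem_coe, mem_product, mem_filter]
    refine ⟨⟨hQ _ hzQ _, ?_⟩, mem_univ _⟩
    have hne : ∀ u ∈ U, u ≠ a := by rintro u hu rfl; exact ha hu
    intro u hu v hv huv
    rw [mem_coe, mem_insert] at hu hv
    simp only at huv
    rcases hu with rfl | hu <;> rcases hv with rfl | hv
    · rfl
    · rw [Function.update_self, Function.update_of_ne (hne v hv)] at huv
      exact absurd ⟨v, hv, huv.symm⟩ hz2.2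
    · rw [Function.update_self, Function.update_of_ne (hne u hu)] at huv
      exact absurd ⟨u, hu, huv⟩ hz2.2
    · rw [Function.update_of_ne (hne v hv), Function.update_of_ne (hne u hu)] at huv
      exact hzU (mem_coe.mpr hu) (mem_coe.mpr hv) huv
  · intro z hz z' hz' hzz
    simp only [Prod.mk.injEq] at hzz
    obtain ⟨e1, e2⟩ := hzz
    obtain ⟨c, y⟩ := z
    obtain ⟨c', y'⟩ := z'
    simp only at e1 e2
    have hc : c = c' := by
      funext v
      by_cases hv : v = a
      · subst hv; exact e2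
      · have := congrFun e1 v
        rwa [Function.update_of_ne hv, Function.update_of_ne hv] at this
    have hy : y = y' := by
      have := congrFun e1 a
      rwa [Function.update_self, Function.update_self] at this
    subst hc hy
    rfl

open Classical in
theorem chain {n κ : ℕ} (hκ : 1 ≤ κ) (Q : Finset (Fin n → Fin κ)) (Z : Finset (Fin n))
    (hZ : ∀ c ∈ Q, Set.InjOn c (Z : Set (Fin n))) (T : Finset (Fin n)) (hTZ : Disjoint T Z)
    (hT : ∀ a ∈ T, ∀ c ∈ Q, ∀ y, Function.update c a y ∈ Q) (hc : (T ∪ Z).card ≤ κ) :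
    w κ (T ∪ Z).card * (Q.card : ℝ) ≤
      (Q.filter (fun c => Set.InjOn c ((T ∪ Z : Finset (Fin n)) : Set (Fin n)))).card := by
  induction T using Finset.induction_on with
  | empty =>
    rw [empty_union]
    have : Q.filter (fun c => Set.InjOn c (Z : Set (Fin n))) = Q := by
      rw [filter_eq_self]; exact hZ
    rw [this]
    have h := w_le_one hκ Z.card
    have := mul_le_mul_of_nonneg_right h (Nat.cast_nonneg (α := ℝ) Q.card)
    linarith
  | insert a T haT ih =>
    have hdis : Disjoint T Z := hTZ.mono_left (subset_insert _ _)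
    have haZ : a ∉ Z := fun h => (disjoint_left.mp hTZ) (mem_insert_self _ _) h
    have haU : a ∉ T ∪ Z := by rw [mem_union]; rintro (h | h); exacts [haT h, haZ h]
    rw [insert_union] at hc ⊢
    have hcard := card_insert_of_notMem haU
    rw [hcard] at hc ⊢
    have h1 := ih hdis (fun b hb => hT b (mem_insert_of_mem hb)) (by omega)
    have h2 := step Q (T ∪ Z) a haU (fun c hcQ y => hT a (mem_insert_self _ _) c hcQ y)
    have h2' : ((Q.filter (fun c => Set.InjOn c ((T ∪ Z : Finset (Fin n)) : Set (Fin n)))).card : ℝ)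
        * ((κ - (T ∪ Z).card : ℕ) : ℝ) ≤
      ((Q.filter (fun c =>
        Set.InjOn c ((insert a (T ∪ Z) : Finset (Fin n)) : Set (Fin n)))).card : ℝ) * κ := by
      exact_mod_cast h2
    have hκ' : (0 : ℝ) < κ := by positivity
    rw [w_succ hκ]
    have h3 : ((κ - (T ∪ Z).card : ℕ) : ℝ) / κ * w κ (T ∪ Z).card * (Q.card : ℝ) ≤
        ((κ - (T ∪ Z).card : ℕ) : ℝ) / κ *
        ((Q.filter (fun c => Set.InjOn c ((T ∪ Z : Finset (Fin n)) : Set (Fin n)))).card : ℝ) := by
      rw [mul_assoc]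
      exact mul_le_mul_of_nonneg_left h1 (by positivity)
    refine h3.trans ?_
    rw [div_mul_eq_mul_div, div_le_iff₀ hκ', mul_comm]
    exact h2'

open Classical in
/-- the colourings injective on `Z` and on no member of `P` -/
noncomputable def bad {n : ℕ} (κ : ℕ) (Z : Finset (Fin n)) (P : Finset (Finset (Fin n))) :
    Finset (Fin n → Fin κ) :=
  univ.filter (fun χ : Fin n → Fin κ => Set.InjOn χ (Z : Set (Fin n)) ∧
      ∀ S ∈ P, ¬ Set.InjOn χ (S : Set (Fin n)))

theorem bad_step {n κ : ℕ} (hκ : 1 ≤ κ) (Z : Finset (Fin n)) (P : Finset (Finset (Fin n)))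
    (S : Finset (Fin n)) (hZS : Z ⊆ S) (hS : S.card ≤ κ) (hdis : ∀ T ∈ P, S ∩ T ⊆ Z) :
    ((bad κ Z (insert S P)).card : ℝ) ≤ (1 - qq κ) * (bad κ Z P).card := by
  classical
  have hTS : S \ Z ∪ Z = S := sdiff_union_of_subset hZS
  have h := chain hκ (bad κ Z P) Z (by
      intro c hc
      simp only [bad, mem_filter, mem_univ, true_and] at hc
      exact hc.1) (S \ Z) sdiff_disjoint (by
      intro a ha c hc y
      rw [mem_sdiff] at ha
      simp only [bad, mem_filter, mem_univ, true_and] at hc ⊢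
      have hsame : ∀ T : Finset (Fin n), a ∉ T →
          (Set.InjOn (Function.update c a y) (T : Set (Fin n)) ↔
            Set.InjOn c (T : Set (Fin n))) := by
        intro T hT
        apply Set.EqOn.injOn_iff
        intro v hv
        have : v ≠ a := by rintro rfl; exact hT hv
        exact Function.update_of_ne this _ _
      refine ⟨(hsame Z ha.2).mpr hc.1, fun T hT => ?_⟩
      rw [hsame T (fun haT => ha.2 (hdis T hT (mem_inter.mpr ⟨ha.1, haT⟩)))]
      exact hc.2 T hT) (by rw [hTS]; exact hS)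
  rw [hTS] at h
  have hq := qq_le_w hκ hS
  have h1 : qq κ * ((bad κ Z P).card : ℝ) ≤
      (((bad κ Z P).filter (fun c => Set.InjOn c (S : Set (Fin n)))).card : ℝ) :=
    (mul_le_mul_of_nonneg_right hq (Nat.cast_nonneg _)).trans h
  have h2 : bad κ Z (insert S P) =
      (bad κ Z P).filter (fun c => ¬ Set.InjOn c (S : Set (Fin n))) := by
    ext c
    simp only [bad, mem_filter, mem_univ, true_and, mem_insert, forall_eq_or_imp]
    tauto
  have h3 := card_filter_add_card_filter_not (s := bad κ Z P)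
    (fun c => Set.InjOn c (S : Set (Fin n)))
  rw [h2]
  have h3' : ((((bad κ Z P).filter (fun c => Set.InjOn c (S : Set (Fin n)))).card : ℝ) +
      (((bad κ Z P).filter (fun c => ¬ Set.InjOn c (S : Set (Fin n)))).card : ℝ)) =
      ((bad κ Z P).card : ℝ) := by exact_mod_cast h3
  linarith

theorem bad_card {n κ : ℕ} (hκ : 1 ≤ κ) (Z : Finset (Fin n)) (P : Finset (Finset (Fin n)))
    (hS : ∀ S ∈ P, Z ⊆ S ∧ S.card ≤ κ) (hdis : ∀ S ∈ P, ∀ T ∈ P, S ≠ T → S ∩ T ⊆ Z) :
    ((bad κ Z P).card : ℝ) ≤ (1 - qq κ) ^ P.card * (κ : ℝ) ^ n := by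
  classical
  induction P using Finset.induction_on with
  | empty =>
    simp only [card_empty, pow_zero, one_mul]
    have : (bad κ Z ∅).card ≤ κ ^ n := by
      calc (bad κ Z ∅).card ≤ (univ : Finset (Fin n → Fin κ)).card := card_le_card (subset_univ _)
        _ = κ ^ n := by simp
    exact_mod_cast this
  | insert S P hSP ih =>
    have h1 := bad_step hκ Z P S (hS S (mem_insert_self _ _)).1 (hS S (mem_insert_self _ _)).2
      (fun T hT => hdis S (mem_insert_self _ _) T (mem_insert_of_mem hT)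
        (by rintro rfl; exact hSP hT))
    have h2 := ih (fun S hS' => hS S (mem_insert_of_mem hS'))
      (fun S hS' T hT' => hdis S (mem_insert_of_mem hS') T (mem_insert_of_mem hT'))
    rw [card_insert_of_notMem hSP, pow_succ]
    have h0 : 0 ≤ 1 - qq κ := by linarith [qq_le_one hκ]
    calc ((bad κ Z (insert S P)).card : ℝ) ≤ (1 - qq κ) * (bad κ Z P).card := h1
      _ ≤ (1 - qq κ) * ((1 - qq κ) ^ P.card * (κ : ℝ) ^ n) := mul_le_mul_of_nonneg_left h2 h0
      _ = _ := by ring

theorem p_col : P_COL := by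
  classical
  intro n κ hκ
  refine ⟨fun X hX => ?_, fun Z P hP hdis => ?_⟩
  · have h := chain hκ (univ : Finset (Fin n → Fin κ)) ∅ (by simp) X (by simp) (by simp)
      (by simpa using hX)
    rw [union_empty] at h
    have h1 : qq κ * (κ : ℝ) ^ n ≤ w κ X.card * ((univ : Finset (Fin n → Fin κ)).card : ℝ) := by
      have : ((univ : Finset (Fin n → Fin κ)).card : ℝ) = (κ : ℝ) ^ n := by simp
      rw [this]
      exact mul_le_mul_of_nonneg_right (qq_le_w hκ hX) (by positivity)
    convert h1.trans h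
  · convert bad_card hκ Z P hP hdis using 2
    unfold bad
    congr! 1

theorem clos1 {n κ : ℕ} (𝒞 : Finset (Finset (Fin n))) (D : ℝ) (hD : 0 ≤ D) :
    ∀ (m : ℕ) (A : Finset (Finset (Fin n))), A ⊆ 𝒞 → (𝒞 \ A).card = m →
    ∃ A' : Finset (Finset (Fin n)), A ⊆ A' ∧ Closed (κ := κ) 𝒞 D A' ∧
    ({χ : Fin n → Fin κ | (∃ X ∈ A', Set.InjOn χ (X : Set (Fin n))) ∧
      ¬ ∃ X ∈ A, Set.InjOn χ (X : Set (Fin n))}.ncard : ℝ) ≤ m * D := by
  classical
  intro m
  induction m with
  | zero =>
    intro A hA hm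
    have hAC : 𝒞 ⊆ A := by
      rw [card_eq_zero, sdiff_eq_empty_iff_subset] at hm
      exact hm
    refine ⟨A, Subset.refl _, ⟨hA, fun Y hY _ => hAC hY⟩, ?_⟩
    have : {χ : Fin n → Fin κ | (∃ X ∈ A, Set.InjOn χ (X : Set (Fin n))) ∧
      ¬ ∃ X ∈ A, Set.InjOn χ (X : Set (Fin n))} = ∅ := by
      ext χ
      rw [Set.mem_ofPred_eq, Set.mem_empty_iff_false, iff_false]
      exact fun h => h.2 h.1
    rw [this]
    simp
  | succ m ih =>
    intro A hA hm
    by_cases hcl : Closed (κ := κ) 𝒞 D A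
    · refine ⟨A, Subset.refl _, hcl, ?_⟩
      have : {χ : Fin n → Fin κ | (∃ X ∈ A, Set.InjOn χ (X : Set (Fin n))) ∧
        ¬ ∃ X ∈ A, Set.InjOn χ (X : Set (Fin n))} = ∅ := by
        ext χ
        rw [Set.mem_ofPred_eq, Set.mem_empty_iff_false, iff_false]
        exact fun h => h.2 h.1
      rw [this]
      simp only [Set.ncard_empty, Nat.cast_zero]
      positivity
    · unfold Closed at hcl
      push Not at hcl
      obtain ⟨Y, hY, hYD, hYA⟩ := hcl hA
      obtain ⟨A', hA', hcl', hb⟩ := ih (insert Y A) (insert_subset hY hA) (by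
        have : 𝒞 \ insert Y A = (𝒞 \ A).erase Y := by
          ext X; simp only [mem_sdiff, mem_insert, mem_erase]; tauto
        rw [this, card_erase_of_mem (mem_sdiff.mpr ⟨hY, hYA⟩), hm]
        rfl)
      refine ⟨A', (subset_insert _ _).trans hA', hcl', ?_⟩
      have hsub : {χ : Fin n → Fin κ | (∃ X ∈ A', Set.InjOn χ (X : Set (Fin n))) ∧
          ¬ ∃ X ∈ A, Set.InjOn χ (X : Set (Fin n))} ⊆
          {χ : Fin n → Fin κ | (∃ X ∈ A', Set.InjOn χ (X : Set (Fin n))) ∧
            ¬ ∃ X ∈ insert Y A, Set.InjOn χ (X : Set (Fin n))} ∪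
          {χ : Fin n → Fin κ | Set.InjOn χ (Y : Set (Fin n)) ∧
            ∀ X ∈ A, ¬ Set.InjOn χ (X : Set (Fin n))} := by
        intro χ hχ
        simp only [Set.mem_ofPred_eq, Set.mem_union, mem_insert, exists_eq_or_imp, not_or,
          not_exists, not_and] at hχ ⊢
        by_cases hY' : Set.InjOn χ (Y : Set (Fin n))
        · exact Or.inr ⟨hY', hχ.2⟩
        · exact Or.inl ⟨hχ.1, hY', hχ.2⟩
      have h1 := (Set.ncard_le_ncard hsub (Set.toFinite _)).trans (Set.ncard_union_le _ _)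
      have h2 : (({χ : Fin n → Fin κ | (∃ X ∈ A', Set.InjOn χ (X : Set (Fin n))) ∧
          ¬ ∃ X ∈ A, Set.InjOn χ (X : Set (Fin n))}.ncard : ℕ) : ℝ) ≤
          ({χ : Fin n → Fin κ | (∃ X ∈ A', Set.InjOn χ (X : Set (Fin n))) ∧
            ¬ ∃ X ∈ insert Y A, Set.InjOn χ (X : Set (Fin n))}.ncard : ℝ) +
          ({χ : Fin n → Fin κ | Set.InjOn χ (Y : Set (Fin n)) ∧
            ∀ X ∈ A, ¬ Set.InjOn χ (X : Set (Fin n))}.ncard : ℝ) := by
        exact_mod_cast h1
      push_cast
      linarith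

theorem p_clos' : P_CLOS := by
  classical
  intro n κ p 𝒞 D hκ hp hD
  refine ⟨fun A hA => ?_, fun hc hdown hDp A hA => ?_⟩
  · obtain ⟨A', h1, h2, h3⟩ := clos1 (κ := κ) 𝒞 D hD _ A hA rfl
    refine ⟨A', h1, h2, ?_⟩
    have h4 : ((𝒞 \ A).card : ℝ) * D ≤ 𝒞.card * D := by
      apply mul_le_mul_of_nonneg_right _ hD
      exact_mod_cast card_le_card sdiff_subset
    refine le_trans (le_of_eq ?_) (h3.trans h4)
    rw [Set.ncard_eq_toFinset_card']
    congr 2
    ext χ
    simp
  · let B : Finset (Finset (Fin n)) := A.filter (fun X => ∀ Y ∈ A, Y ⊆ X → Y = X)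
    have hBA : B ⊆ A := filter_subset _ _
    refine ⟨B, hBA, ?_, ?_⟩
    · by_contra hcon
      push Not at hcon
      obtain ⟨P, hPB, hPp, Z, hZ, hdis⟩ := Pool.Agent.H520R2.sunflower p (by omega) κ B
        (fun S hS => hc S (hA.1 (hBA hS))) hcon
      obtain ⟨S0, hS0⟩ : P.Nonempty := by rw [← card_pos]; omega
      have hZA : Z ∈ A := by
        apply hA.2 Z (hdown S0 (hA.1 (hBA (hPB hS0))) Z (hZ S0 hS0))
        have hb := bad_card hκ Z P (fun S hS => ⟨hZ S hS, hc S (hA.1 (hBA (hPB hS)))⟩) hdis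
        rw [hPp] at hb
        refine le_trans ?_ (hb.trans hDp)
        rw [← Set.ncard_coe_finset (bad κ Z P)]
        have : {χ : Fin n → Fin κ | Set.InjOn χ (Z : Set (Fin n)) ∧
            ∀ X ∈ A, ¬ Set.InjOn χ (X : Set (Fin n))} ⊆ ((bad κ Z P : Finset _) : Set _) := by
          intro χ hχ
          simp only [bad, coe_filter, mem_univ, true_and, Set.mem_ofPred_eq] at hχ ⊢
          exact ⟨hχ.1, fun S hS => hχ.2 S (hBA (hPB hS))⟩
        exact_mod_cast Set.ncard_le_ncard this (Set.toFinite _)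
      have hall : ∀ S ∈ P, Z = S := fun S hS => (mem_filter.mp (hPB hS)).2 Z hZA (hZ S hS)
      have : P ⊆ {Z} := by
        intro S hS
        rw [mem_singleton]
        exact (hall S hS).symm
      have := card_le_card this
      rw [card_singleton] at this
      omega
    · intro X hX
      have hne : (A.filter (fun Y => Y ⊆ X)).Nonempty := ⟨X, by simp [hX]⟩
      obtain ⟨Y, hY, hmin⟩ := exists_min_image _ card hne
      rw [mem_filter] at hY
      refine ⟨Y, ?_, hY.2⟩
      rw [mem_filter]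
      refine ⟨hY.1, fun Y' hY' hsub => ?_⟩
      exact eq_of_subset_of_card_le hsub (hmin Y' (by rw [mem_filter]; exact ⟨hY', hsub.trans hY.2⟩))

theorem p_clos : P_COL → P_CLOS := fun _ => p_clos'

end Pool.Agent.W2helper56.CU
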